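import Pool.Agent.H37.PT2.Defs

/-! # Module INT: interpolation between `ℓ_2` and `ℓ_4` -/

set_option autoImplicit false

open Finset

namespace Pool.PT2

theorem sInt : SInt := by
  intro q s hq hs
  have hq0 : 0 < q := by linarith
  set l : ℝ := 2 / q with hl
  have hl0 : 0 < l := by positivity
  have hl1 : l < 1 := by rw [hl, div_lt_one hq0]; exact hq
  have h1l : 0 < 1 - l := by linarith
  set C : ℝ := s ^ (-l / (1 - l)) with hC
  have hC0 : 0 < C := Real.rpow_pos_of_pos hs _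
  refine ⟨C, hC0, fun k y => ?_⟩
  set A : ℝ := ∑ j, y j ^ 2 with hA
  set D : ℝ := √(∑ j, y j ^ 4) with hD
  have hA0 : 0 ≤ A := Finset.sum_nonneg fun j _ => sq_nonneg _
  have hD0 : 0 ≤ D := Real.sqrt_nonneg _
  have hB0 : 0 ≤ ∑ j, y j ^ 4 := Finset.sum_nonneg fun j _ => by positivity
  have hyD : ∀ j, |y j| ^ 2 ≤ D := by
    intro j
    apply Real.le_sqrt_of_sq_le
    have h1 : (|y j| ^ 2) ^ 2 = y j ^ 4 := by
      rw [sq_abs]; ring
    rw [h1]
    exact Finset.single_le_sum (f := fun j => y j ^ 4) (fun i _ => by positivity)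
      (Finset.mem_univ j)
  have hpt : ∀ j, |y j| ^ q ≤ y j ^ 2 * D ^ ((q - 2) / 2) := by
    intro j
    have h1 : |y j| ^ q = |y j| ^ (2 : ℕ) * (|y j| ^ (2 : ℕ)) ^ ((q - 2) / 2) := by
      rcases (abs_nonneg (y j)).eq_or_lt with h | h
      · rw [← h, Real.zero_rpow hq0.ne']
        simp
      · rw [← Real.rpow_natCast, ← Real.rpow_mul h.le, ← Real.rpow_add h]
        congr 1
        push_cast
        ring
    rw [h1, sq_abs]
    refine mul_le_mul_of_nonneg_left ?_ (sq_nonneg _)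
    have h2 := hyD j
    rw [sq_abs] at h2
    exact Real.rpow_le_rpow (sq_nonneg _) h2 (by linarith)
  have hsum : ∑ j, |y j| ^ q ≤ A * D ^ ((q - 2) / 2) := by
    rw [hA, Finset.sum_mul]
    exact Finset.sum_le_sum fun j _ => hpt j
  have hS0 : 0 ≤ ∑ j, |y j| ^ q := Finset.sum_nonneg fun j _ => Real.rpow_nonneg (abs_nonneg _) _
  have h3 : lq q y ^ 2 ≤ A ^ l * D ^ (1 - l) := by
    unfold lq
    rw [← Real.rpow_natCast, ← Real.rpow_mul hS0]
    have h4 : (1 / q * ((2 : ℕ) : ℝ)) = l := by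
      rw [hl]; push_cast; ring
    rw [h4]
    refine (Real.rpow_le_rpow hS0 hsum hl0.le).trans ?_
    rw [Real.mul_rpow hA0 (Real.rpow_nonneg hD0 _), ← Real.rpow_mul hD0]
    have h5 : (q - 2) / 2 * l = 1 - l := by
      rw [hl]; field_simp
    rw [h5]
  have h6 : A ^ l * D ^ (1 - l) = (s * A) ^ l * (C * D) ^ (1 - l) := by
    rw [Real.mul_rpow hs.le hA0, Real.mul_rpow hC0.le hD0, hC, ← Real.rpow_mul hs.le]
    have h7 : -l / (1 - l) * (1 - l) = -l := by field_simp
    rw [h7]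
    have h8 : s ^ l * s ^ (-l) = 1 := by
      rw [← Real.rpow_add hs]; simp
    calc A ^ l * D ^ (1 - l) = (s ^ l * s ^ (-l)) * (A ^ l * D ^ (1 - l)) := by rw [h8, one_mul]
      _ = _ := by ring
  have h9 := Real.geom_mean_le_arith_mean2_weighted hl0.le h1l.le
    (mul_nonneg hs.le hA0) (mul_nonneg hC0.le hD0) (by ring : l + (1 - l) = 1)
  have hsA : 0 ≤ s * A := mul_nonneg hs.le hA0
  have hCD : 0 ≤ C * D := mul_nonneg hC0.le hD0
  calc lq q y ^ 2 ≤ A ^ l * D ^ (1 - l) := h3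
    _ = (s * A) ^ l * (C * D) ^ (1 - l) := h6
    _ ≤ l * (s * A) + (1 - l) * (C * D) := h9
    _ ≤ s * A + C * D := by nlinarith

end Pool.PT2
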