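import Pool.Agent.H33.PT2.MM4

/-! # Module MM2: the second moment -/

set_option autoImplicit false

open Finset

namespace Pool.PT2

theorem sMm2 : SMm2 := by
  intro m k N hk hN Q i t
  have hne1 : Nonempty (Fin k) := ⟨⟨0, hk⟩⟩
  have hne2 : Nonempty (Fin N) := ⟨⟨0, hN⟩⟩
  let α : Type := Fin k × Fin N × Bool
  let Z : Fin m → α → ℝ := fun a x => if x.2.1 = i then sg x.2.2 * Q t (a, x.1) else 0
  let e : (Fin m → α) ≃ (Fin m → Fin k) × (Fin m → Fin N) × (Fin m → Bool) :=
    { toFun := fun f => (fun a => (f a).1, fun a => (f a).2.1, fun a => (f a).2.2)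
      invFun := fun p a => (p.1 a, p.2.1 a, p.2.2 a)
      left_inv := fun f => rfl
      right_inv := fun p => rfl }
  have hcard : (Fintype.card α : ℝ) = 2 * (N * k) := by
    simp only [α, Fintype.card_prod, Fintype.card_fin, Fintype.card_bool]
    push_cast
    ring
  have hk0 : (0 : ℝ) < k := by exact_mod_cast hk
  have hN0 : (0 : ℝ) < N := by exact_mod_cast hN
  have hsumZ : ∀ (a : Fin m) (φ : ℝ → ℝ), φ 0 = 0 →
      ∑ x : α, φ (Z a x) = ∑ j, (φ (Q t (a, j)) + φ (-Q t (a, j))) := by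
    intro a φ h0
    rw [Fintype.sum_prod_type]
    refine Finset.sum_congr rfl fun j _ => ?_
    rw [Fintype.sum_prod_type]
    rw [Finset.sum_eq_single i]
    · rw [Fintype.sum_bool]
      simp [Z, sg]
    · intro n _ hn
      simp [Z, hn, h0]
    · intro h
      exact absurd (Finset.mem_univ i) h
  have hm1 : ∀ a, avg (Z a) = 0 := by
    intro a
    unfold avg
    have h := hsumZ a (fun y => y) rfl
    rw [h]
    simp
  have hm3 : ∀ a, avg (fun x => Z a x ^ 3) = 0 := by
    intro a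
    unfold avg
    rw [hsumZ a (fun y => y ^ 3) (by norm_num)]
    have : ∀ j ∈ (Finset.univ : Finset (Fin k)),
        (Q t (a, j) ^ 3 + (-Q t (a, j)) ^ 3) = 0 := fun j _ => by ring
    rw [Finset.sum_congr rfl this]
    simp
  have hm2 : ∀ a, avg (fun x => Z a x ^ 2) = (∑ j, Q t (a, j) ^ 2) / (N * k) := by
    intro a
    unfold avg
    rw [hsumZ a (fun y => y ^ 2) (by norm_num), hcard]
    have : ∀ j ∈ (Finset.univ : Finset (Fin k)),
        (Q t (a, j) ^ 2 + (-Q t (a, j)) ^ 2) = 2 * Q t (a, j) ^ 2 := fun j _ => by ring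
    rw [Finset.sum_congr rfl this, ← Finset.mul_sum]
    field_simp
  have hfun : avg (fun p => cs Q i p t ^ 2) =
      avg (fun f : Fin m → α => (∑ a ∈ (Finset.univ : Finset (Fin m)), Z a (f a)) ^ 2) :=
    (MM4_avg_equiv e (fun p => cs Q i p t ^ 2)).symm
  have hmain := (MM4_moments m Z hm1 hm3 Finset.univ).2.1
  have htot : ∑ a, ∑ j, Q t (a, j) ^ 2 = ∑ s, Q t s ^ 2 := by
    rw [Fintype.sum_prod_type]
  rw [hfun, hmain, Finset.sum_congr rfl fun a _ => hm2 a, ← Finset.sum_div, htot]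

end Pool.PT2
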